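import Mathlib
import Pool.Agent.MP_9b0ed7_co.H8.Param

namespace Pool.Agent.Results.MP_9b0ed7_co.CriticalEdges

open Pool.Agent.MP_9b0ed7_co.H41 Pool.Agent.MP_9b0ed7_co.H8

/-- Let `xy` be the minimal and `x'y'` the maximal edge of `G`. If `G - xy` and `G - x'y'` have
homomorphisms to a graph `K` sending `x, y`, resp. `x', y'`, to one common vertex, while `G` has no
homomorphism to `K`, then `sat_e(n, G) = O(n log n / log log n)`. -/
theorem result {W U : Type} [Fintype W] (G : SimpleGraph W) (lG : Sym2 W → ℝ)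
    (_hG : EdgeOrdered G lG) (x y x' y' : W) (hxy : G.Adj x y) (hxy' : G.Adj x' y')
    (hmin : ∀ a b, G.Adj a b → lG s(x, y) ≤ lG s(a, b))
    (hmax : ∀ a b, G.Adj a b → lG s(a, b) ≤ lG s(x', y'))
    (K : SimpleGraph U) (f : G.deleteEdges {s(x, y)} →g K) (f' : G.deleteEdges {s(x', y')} →g K)
    (h1 : f x = f y) (h2 : f' x' = f' y') (h3 : f x = f' x') (hK : IsEmpty (G →g K)) :
    ∃ (C : ℝ) (n₀ : ℕ), ∀ n ≥ n₀, ∃ (H : SimpleGraph (Fin n)) (lH : Sym2 (Fin n) → ℝ),
      EdgeOrdered H lH ∧ Saturated H lH G lG ∧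
        (H.edgeSet.ncard : ℝ) ≤ C * (n * Real.log n / Real.log (Real.log n)) := by
  refine sat_upper G lG (fun z => cond z x x') (fun z => cond z y y')
    (fun z => by cases z; exacts [hxy', hxy]) hmin hmax (K := K) (fun z => cond z f f')
    (fun z a b hab hne => ?_) (f x) (fun z => ?_) (fun z => ?_) hK
  · cases z
    · exact f'.map_rel (SimpleGraph.deleteEdges_adj.2 ⟨hab, hne⟩)
    · exact f.map_rel (SimpleGraph.deleteEdges_adj.2 ⟨hab, hne⟩)
  · cases z
    · exact h3.symm
    · rfl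
  · cases z
    · exact h2.symm.trans h3.symm
    · exact h1.symm

end Pool.Agent.Results.MP_9b0ed7_co.CriticalEdges
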