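import Mathlib
import Pool.Agent.MP_9b0ed7_co.H36.Final

set_option autoImplicit false

namespace Pool.Agent.Results.MP_9b0ed7_co.LowestEdge

open Pool.Agent.MP_9b0ed7_co.H41 Pool.Agent.MP_9b0ed7_co.H36

/-- `sat_m(n, G) = O(n log n)` for every edge-ordered graph `G` with an edge: saturation where the
new edge is added as the lowest edge. -/
theorem result {W : Type} [Fintype W] (G : SimpleGraph W) (lG : Sym2 W → ℝ)
    (hG : EdgeOrdered G lG) (hne : ∃ a b, G.Adj a b) :
    ∃ (C : ℝ) (n₀ : ℕ), ∀ n ≥ n₀, ∃ (H : SimpleGraph (Fin n)) (lH : Sym2 (Fin n) → ℝ),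
      EdgeOrdered H lH ∧ MinSaturated H lH G lG ∧
        (H.edgeSet.ncard : ℝ) ≤ C * n * Real.log n :=
  main hG hne

end Pool.Agent.Results.MP_9b0ed7_co.LowestEdge
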