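import Mathlib
import Pool.Agent.MP_9b0ed7_co.H41.Main

set_option autoImplicit false

namespace Pool.Agent.Results.MP_9b0ed7_co.NoIndependentCut

open Pool.Agent.MP_9b0ed7_co.H41

/-- `sat_e(n, G) = O(n log n)` for every edge-ordered graph `G` with an edge in which, for every
threshold `t`, the set of vertices meeting both an edge with label `≤ t` and an edge with label
`> t` is either empty or spans an edge of `G`. -/
theorem result {W : Type} [Fintype W] (G : SimpleGraph W) (lG : Sym2 W → ℝ)
    (hG : EdgeOrdered G lG) (hne : ∃ a b, G.Adj a b)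
    (hcut : ∀ t : ℝ, (∃ a, Straddles G lG t a) →
      ∃ a b, G.Adj a b ∧ Straddles G lG t a ∧ Straddles G lG t b) :
    ∃ (C : ℝ) (n₀ : ℕ), ∀ n ≥ n₀, ∃ (H : SimpleGraph (Fin n)) (lH : Sym2 (Fin n) → ℝ),
      EdgeOrdered H lH ∧ Saturated H lH G lG ∧
        (H.edgeSet.ncard : ℝ) ≤ C * n * Real.log n :=
  main_bound hG hne hcut

end Pool.Agent.Results.MP_9b0ed7_co.NoIndependentCut
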