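import Mathlib
import Pool.Agent.MP_9b0ed7_co.H8.Param

namespace Pool.Agent.Results.MP_9b0ed7_co.SemiExact

open Pool.Agent.MP_9b0ed7_co.H41 Pool.Agent.MP_9b0ed7_co.H8

/-- The largest order of the semisaturation function is `n log n / log log n`: the upper bound
holds for every edge-ordered graph with an edge, and the lower bound (also for saturation) holds
when the minimal edge has two common neighbours seen in opposite orders from its ends. -/
theorem result {W : Type} [Fintype W] (G : SimpleGraph W) (lG : Sym2 W → ℝ)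
    (hG : EdgeOrdered G lG) (hne : ∃ a b, G.Adj a b) :
    (∃ (C : ℝ) (n₀ : ℕ), ∀ n ≥ n₀, ∃ (H : SimpleGraph (Fin n)) (lH : Sym2 (Fin n) → ℝ),
      EdgeOrdered H lH ∧ SemiSaturated H lH G lG ∧
        (H.edgeSet.ncard : ℝ) ≤ C * (n * Real.log n / Real.log (Real.log n))) ∧
    ∀ x y z w : W, G.Adj x y → (∀ a b, G.Adj a b → lG s(x, y) ≤ lG s(a, b)) →
      G.Adj x z → G.Adj x w → G.Adj y z → G.Adj y w →
      lG s(x, z) < lG s(x, w) → lG s(y, w) < lG s(y, z) →
      ∃ n₀ : ℕ, ∀ n ≥ n₀, ∀ (H : SimpleGraph (Fin n)) (lH : Sym2 (Fin n) → ℝ), EdgeOrdered H lH →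
        (SemiSaturated H lH G lG ∨ Saturated H lH G lG) →
          1 / 16 * (n * Real.log n / Real.log (Real.log n)) ≤ (H.edgeSet.ncard : ℝ) := by
  refine ⟨semi_upper G lG hne, fun x y z w hxy hmin hxz hxw hyz hyw h1 h2 => ?_⟩
  refine ⟨⌈Real.exp 64⌉₊, fun n hn H lH _ hs => ?_⟩
  have hs' : SemiSaturated H lH G lG := hs.elim id Saturated.semi
  refine lower_real (Nat.ceil_le.1 hn) fun D hD => count_bound hD H lH fun u v huv hadj => ?_
  exact opposite_pair hG hxy hmin hxz hxw hyz hyw h1 h2 hs' huv hadj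

end Pool.Agent.Results.MP_9b0ed7_co.SemiExact
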